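import Pool.Agent.helper84.QI.Spec

/-!
MP_fd6eef, project QI, row CQF: the centralizer of a subgroup of finite index is finite
-/

set_option autoImplicit false

namespace Pool.Agent.QI

theorem CQF (hNIN : NIN_stmt) (hQIV : QIV_stmt) : CQF_stmt := by
  intro G _ a b hCE Q hQ
  by_contra hinf
  have hinf' : (Subgroup.centralizer (Q : Set G) : Set G).Infinite := hinf
  have : Q.FiniteIndex := hQ
  have hN : Q.normalCore.FiniteIndex := inferInstance
  have hle : Subgroup.centralizer (Q : Set G) ≤ Subgroup.centralizer (Q.normalCore : Set G) :=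
    Subgroup.centralizer_le (Subgroup.normalCore_le Q)
  have hC : (Subgroup.centralizer (Q.normalCore : Set G)).FiniteIndex :=
    hNIN G a b hCE _ inferInstance (hinf'.mono hle)
  have hA : (Q.normalCore ⊓ Subgroup.centralizer (Q.normalCore : Set G)).FiniteIndex := inferInstance
  refine hQIV G a b hCE _ hA fun x hx y hy => ?_
  exact Subgroup.mem_centralizer_iff.1 hy.2 x hx.1

end Pool.Agent.QI
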